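import Mathlib
import Pool.Agent.Helper311.GB.Main
import Pool.Agent.Helper311.GB.Sanity

set_option autoImplicit false

open Filter Topology Set

namespace Pool.Agent.Results.MP_0da214_an.PoleAtBoundary

/-- Plurisubharmonic functions on an open set `Ω` of `ℂⁿ`, with values in `[-∞, ∞)`: upper
semicontinuous, and for every closed complex disc `{a + ζ b : |ζ| ≤ 1} ⊆ Ω` the value at the centre
`a` is at most the mean over the boundary circle. The mean of an upper semicontinuous function is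
the infimum of the means of its continuous majorants, which is how it is expressed here. -/
def PSH {n : ℕ} (Ω : Set (EuclideanSpace ℂ (Fin n)))
    (u : EuclideanSpace ℂ (Fin n) → EReal) : Prop :=
  UpperSemicontinuousOn u Ω ∧ (∀ z ∈ Ω, u z < ⊤) ∧
  ∀ a b : EuclideanSpace ℂ (Fin n), (∀ ζ : ℂ, ‖ζ‖ ≤ 1 → a + ζ • b ∈ Ω) →
    ∀ φ : ℂ → ℝ, Continuous φ →
      (∀ ζ : ℂ, ‖ζ‖ = 1 → u (a + ζ • b) ≤ ((φ ζ : ℝ) : EReal)) →
        u a ≤ ((Real.circleAverage φ 0 1 : ℝ) : EReal)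

/-- The pluricomplex Green function `g_Ω(z, w)` of `Ω` with pole `w`: the supremum of `u z` over all
plurisubharmonic `u ≤ 0` on `Ω` with `u(s) ≤ log ‖s - w‖ + C_u` for all `s ∈ Ω`, `s ≠ w` (at `s = w`
this forces `u(w) = -∞` by the sub-mean value property). -/
noncomputable def green {n : ℕ} (Ω : Set (EuclideanSpace ℂ (Fin n)))
    (w z : EuclideanSpace ℂ (Fin n)) : EReal :=
  sSup {t : EReal | ∃ u : EuclideanSpace ℂ (Fin n) → EReal, PSH Ω u ∧ (∀ s ∈ Ω, u s ≤ 0) ∧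
    (∃ C : ℝ, ∀ s ∈ Ω, s ≠ w → u s ≤ ((Real.log ‖s - w‖ + C : ℝ) : EReal)) ∧ t = u z}

/-- `Ω` is hyperconvex: there is a negative plurisubharmonic function `ρ` on `Ω` such that every
sublevel set `{ρ < c}`, `c < 0`, is relatively compact in `Ω`. -/
def Hyperconvex {n : ℕ} (Ω : Set (EuclideanSpace ℂ (Fin n))) : Prop :=
  ∃ ρ : EuclideanSpace ℂ (Fin n) → EReal, PSH Ω ρ ∧ (∀ z ∈ Ω, ρ z < 0) ∧
    ∀ c : ℝ, c < 0 → ∃ K : Set (EuclideanSpace ℂ (Fin n)), IsCompact K ∧ K ⊆ Ω ∧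
      ∀ z ∈ Ω, ρ z < (c : EReal) → z ∈ K

/-- Sanity check: the class in the definition of `green` is rich enough, as the usual lower bound
`log (‖z - w‖ / r) ≤ g_Ω(z, w)` holds for `Ω` inside the ball of radius `r` about `w`. In
particular `g_Ω(z, w) > -∞` for `z ≠ w`. -/
theorem log_le_green {n : ℕ} (Ω : Set (EuclideanSpace ℂ (Fin n)))
    (w z : EuclideanSpace ℂ (Fin n)) (r : ℝ) (hr : 0 < r) (hΩ : Ω ⊆ Metric.ball w r)
    (hzw : z ≠ w) : ((Real.log (‖z - w‖ / r) : ℝ) : EReal) ≤ green Ω w z :=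
  Pool.Agent.Helper311.GB.green_ge n Ω w z r hr hΩ hzw

/-- **Main theorem.** For every `n ≥ 3` there are a bounded hyperconvex domain `Ω ⊆ ℂⁿ`, a compact
set `K ⊆ Ω` and poles `p j ∈ Ω` whose distance to `∂Ω` tends to `0`, such that for every `j` the
Green function with pole `p j` takes a value `≤ -log 2` somewhere on `K`. -/
theorem result (n : ℕ) (hn : 3 ≤ n) : ∃ Ω : Set (EuclideanSpace ℂ (Fin n)),
    IsOpen Ω ∧ IsConnected Ω ∧ Bornology.IsBounded Ω ∧ Hyperconvex Ω ∧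
    ∃ K : Set (EuclideanSpace ℂ (Fin n)), IsCompact K ∧ K ⊆ Ω ∧
    ∃ p : ℕ → EuclideanSpace ℂ (Fin n), (∀ j, p j ∈ Ω) ∧
      Tendsto (fun j => Metric.infDist (p j) (frontier Ω)) atTop (𝓝 0) ∧
      ∀ j, ∃ z ∈ K, green Ω (p j) z ≤ ((-Real.log 2 : ℝ) : EReal) :=
  Pool.Agent.Helper311.GB.main_thm n hn

end Pool.Agent.Results.MP_0da214_an.PoleAtBoundary
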